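import Pool.Agent.Helper63.P705.NUM.Goals

/-! # MP_705522_gt: packet NUM-N4 -/

namespace Pool.Agent.Helper19.P705

open Pool.Agent.Helper63.P705
open Pool.Agent.Helper53.PT (mo)

theorem gG_pos (x : ℝ) (hx : 0 < x) : 0 < gG x := by
  unfold gG
  have h1 := Real.Gamma_pos_of_pos hx
  have h2 : (0 : ℝ) < (80 : ℝ) ^ (-x) := Real.rpow_pos_of_pos (by norm_num) _
  have h3 := Real.exp_pos 80
  positivity

theorem gG_succ (x : ℝ) (hx : 0 < x) : gG (x + 1) = x / 80 * gG x := by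
  unfold gG
  rw [Real.Gamma_add_one hx.ne', neg_add, Real.rpow_add (by norm_num), Real.rpow_neg_one]
  ring

theorem ratio (θ : ℝ) (h0 : 0 < θ) (h1 : θ < 1 / 2) (j : ℕ) :
    mo θ (j + 1) / ((2 * j + 1) * mo θ j) =
    gG (1 + (2 * j + 1) * θ) * gG (1 - θ) / (gG (1 + (2 * j - 1) * θ) * gG (1 + θ) * (2 * j + 1)) := by
  have hj : (0 : ℝ) ≤ (j : ℝ) := Nat.cast_nonneg j
  have hA : (0 : ℝ) < 1 + (2 * j - 1) * θ := by nlinarith
  have hA' : (0 : ℝ) < 1 + (2 * j + 1) * θ := by nlinarith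
  have g1 := Real.Gamma_pos_of_pos hA
  have g2 := Real.Gamma_pos_of_pos hA'
  have g3 : 0 < Real.Gamma (1 - θ) := Real.Gamma_pos_of_pos (by linarith)
  have g4 : 0 < Real.Gamma (1 + θ) := Real.Gamma_pos_of_pos (by linarith)
  have hp : ∀ y : ℝ, (80 : ℝ) ^ y ≠ 0 := fun y => (Real.rpow_pos_of_pos (by norm_num) y).ne'
  have he := (Real.exp_pos 80).ne'
  have hpow : (80 : ℝ) ^ (-(1 + (2 * j + 1) * θ)) * (80 : ℝ) ^ (-(1 - θ)) =
      (80 : ℝ) ^ (-(1 + (2 * j - 1) * θ)) * (80 : ℝ) ^ (-(1 + θ)) := by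
    rw [← Real.rpow_add (by norm_num), ← Real.rpow_add (by norm_num)]
    congr 1
    ring
  have hj1 : (2 * (j : ℝ) + 1) ≠ 0 := by positivity
  have e1 : gG (1 + (2 * j + 1) * θ) * gG (1 - θ) =
      (Real.Gamma (1 + (2 * j + 1) * θ) * Real.Gamma (1 - θ)) *
      (((80 : ℝ) ^ (-(1 + (2 * j + 1) * θ)) * (80 : ℝ) ^ (-(1 - θ))) * (Real.exp 80 * Real.exp 80)) := by
    unfold gG; ring
  have e2 : gG (1 + (2 * j - 1) * θ) * gG (1 + θ) =
      (Real.Gamma (1 + (2 * j - 1) * θ) * Real.Gamma (1 + θ)) *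
      (((80 : ℝ) ^ (-(1 + (2 * j - 1) * θ)) * (80 : ℝ) ^ (-(1 + θ))) * (Real.exp 80 * Real.exp 80)) := by
    unfold gG; ring
  rw [e1, e2, hpow]
  unfold mo
  have e3 : (1 + (2 * ((j + 1 : ℕ) : ℝ) - 1) * θ) = 1 + (2 * j + 1) * θ := by
    push_cast; ring
  rw [e3, pow_succ]
  have hp1 := hp (-(1 + (2 * j - 1) * θ))
  have hp2 := hp (-(1 + θ))
  have g1' := g1.ne'
  have g2' := g2.ne'
  have g3' := g3.ne'
  have g4' := g4.ne'
  have hr : (Real.Gamma (1 - θ) / Real.Gamma (1 + θ)) ^ j ≠ 0 := pow_ne_zero _ (div_ne_zero g3' g4')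
  generalize (Real.Gamma (1 - θ) / Real.Gamma (1 + θ)) ^ j = R at hr
  generalize (80 : ℝ) ^ (-(1 + (2 * j - 1) * θ)) = p1 at hp1
  generalize (80 : ℝ) ^ (-(1 + θ)) = p2 at hp2
  generalize Real.exp 80 = e at he
  generalize Real.Gamma (1 + (2 * j - 1) * θ) = G1 at g1'
  generalize Real.Gamma (1 + (2 * j + 1) * θ) = G2 at g2'
  generalize Real.Gamma (1 - θ) = G3 at g3'
  generalize Real.Gamma (1 + θ) = G4 at g4'
  field_simp

theorem lp_prod (r : ℕ) (m : ℕ) : ∀ a : ℕ,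
    ((lp m (fun i acc => Nat.mul acc (Nat.add (Nat.mul 8192 (Nat.succ i)) r)) a : ℕ) : ℝ) =
      a * ∏ i ∈ Finset.range m, (8192 * ((i : ℝ) + 1) + r) := by
  induction m with
  | zero => intro a; simp
  | succ m ih =>
    intro a
    rw [lp_succ, ih, Finset.prod_range_succ]
    have : ((Nat.mul a (Nat.add (Nat.mul 8192 (Nat.succ m)) r) : ℕ) : ℝ) =
        a * (8192 * ((m : ℝ) + 1) + r) := by
      show ((a * (8192 * (m + 1) + r) : ℕ) : ℝ) = _
      push_cast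
      ring
    rw [this]
    ring

theorem prodP_eq (m r : ℕ) : (prodP m r : ℝ) = ∏ i ∈ Finset.range m, (8192 * ((i : ℝ) + 1) + r) := by
  unfold prodP
  rw [lp_prod]
  simp

theorem shift (m r : ℕ) :
    gG (1 + (8192 * m + r) / 8192) * 655360 ^ m = gG (1 + r / 8192) * prodP m r := by
  rw [prodP_eq]
  induction m with
  | zero => simp
  | succ m ih =>
    rw [Finset.prod_range_succ, ← mul_assoc, ← ih]
    have h1 : (1 + (8192 * ((m + 1 : ℕ) : ℝ) + r) / 8192) = (1 + (8192 * (m : ℝ) + r) / 8192) + 1 := by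
      push_cast; ring
    rw [h1, gG_succ _ (by positivity)]
    ring

/-- **N4.** -/
theorem n4 : Pool.Agent.Helper63.P705.N4 :=
  ⟨fun x hx => ⟨gG_succ x hx, gG_pos x hx⟩, fun θ h0 h1 j => ratio θ h0 h1 j, prodP_eq, shift⟩

end Pool.Agent.Helper19.P705
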